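import Mathlib
import Pool.Agent.V11117.Fied

/-!
MP_a456c8_co, Q1: a counterexample. The graph has 10 vertices and 21 edges; vertex `2` is the only
minimum of a Fiedler vector, and for `x = 100` the new vertex is neither a maximum nor a minimum of
the Fiedler vector. The proof uses approximate eigenvectors with integer certificates.
-/

namespace Pool.Agent.Results.MP_a456c8_co.PendantNotExtremal

open Finset Matrix Pool.Agent.V11117

/-- The Laplacian `D - W`. -/
def lap {V : Type} [Fintype V] [DecidableEq V] (W : V → V → ℝ) : Matrix V V ℝ :=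
  Matrix.diagonal (fun i => ∑ j, W i j) - Matrix.of W

/-- `φ` is a Fiedler vector with `λ_2 = μ`: a unit eigenvector for the least positive eigenvalue
of the Laplacian. (For a connected graph `0` is a simple eigenvalue and all the others are
positive, so that `λ_2` is the least positive eigenvalue.) -/
structure IsFiedler {V : Type} [Fintype V] [DecidableEq V] (W : V → V → ℝ) (μ : ℝ) (φ : V → ℝ) :
    Prop where
  unit : ∑ i, φ i ^ 2 = 1
  eig : lap W *ᵥ φ = μ • φ
  pos : 0 < μ
  least : ∀ (ν : ℝ) (ψ : V → ℝ), ψ ≠ 0 → lap W *ᵥ ψ = ν • ψ → 0 < ν → μ ≤ ν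

/-- `μ` is a simple eigenvalue of the Laplacian. -/
def IsSimpleEig {V : Type} [Fintype V] [DecidableEq V] (W : V → V → ℝ) (μ : ℝ) : Prop :=
  Module.finrank ℝ (Module.End.eigenspace (Matrix.toLin' (lap W)) μ) = 1

/-- `u` is an extremum of `φ`. -/
def IsExtremum {V : Type} (φ : V → ℝ) (u : V) : Prop := (∀ i, φ i ≤ φ u) ∨ (∀ i, φ u ≤ φ i)

open Classical in
/-- The weights of an unweighted graph. -/
noncomputable def wts {V : Type} (G : SimpleGraph V) (i j : V) : ℝ := if G.Adj i j then 1 else 0

/-- The weights of the graph with the new vertex `none` joined to `v` by an edge of weight `x`. -/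
def attach {V : Type} [DecidableEq V] (W : V → V → ℝ) (v : V) (x : ℝ) :
    Option V → Option V → ℝ
  | some i, some j => W i j
  | some i, none => if i = v then x else 0
  | none, some j => if j = v then x else 0
  | none, none => 0

/-- Q1: the posed statement. -/
def Question : Prop :=
  ∀ (n : ℕ), 2 ≤ n → ∀ (G : SimpleGraph (Fin n)), G.Connected →
    ∀ (μ : ℝ) (φ : Fin n → ℝ), IsFiedler (wts G) μ φ → IsSimpleEig (wts G) μ →
    ∀ v : Fin n, IsExtremum φ v → ∀ x : ℝ, 0 < x →
    ∀ (μ' : ℝ) (Φ : Option (Fin n) → ℝ), IsFiedler (attach (wts G) v x) μ' Φ →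
      IsSimpleEig (attach (wts G) v x) μ' → IsExtremum Φ none

/-! ### The graph -/

/-- adjacency masks -/
def masks : List ℕ := [914, 233, 624, 130, 965, 6, 406, 603, 81, 149]

/-- The graph on `10` vertices. -/
def G10 : SimpleGraph (Fin 10) where
  Adj i j := Nat.testBit (masks.getD i 0) j = true
  symm := ⟨by decide +kernel⟩
  loopless := ⟨by decide +kernel⟩

instance : DecidableRel G10.Adj := fun i j =>
  inferInstanceAs (Decidable (Nat.testBit (masks.getD i 0) j = true))

lemma G10_connected : G10.Connected := by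
  rw [SimpleGraph.connected_iff_exists_forall_reachable]
  refine ⟨0, ?_⟩
  have h1 : G10.Reachable 0 1 := SimpleGraph.Adj.reachable (by decide)
  have h4 : G10.Reachable 0 4 := SimpleGraph.Adj.reachable (by decide)
  have h7 : G10.Reachable 0 7 := SimpleGraph.Adj.reachable (by decide)
  have h8 : G10.Reachable 0 8 := SimpleGraph.Adj.reachable (by decide)
  have h9 : G10.Reachable 0 9 := SimpleGraph.Adj.reachable (by decide)
  have h3 : G10.Reachable 0 3 := h1.trans (SimpleGraph.Adj.reachable (by decide))
  have h5 : G10.Reachable 0 5 := h1.trans (SimpleGraph.Adj.reachable (by decide))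
  have h6 : G10.Reachable 0 6 := h1.trans (SimpleGraph.Adj.reachable (by decide))
  have h2 : G10.Reachable 0 2 := h4.trans (SimpleGraph.Adj.reachable (by decide))
  intro w
  fin_cases w
  · exact SimpleGraph.Reachable.refl _
  · exact h1
  · exact h2
  · exact h3
  · exact h4
  · exact h5
  · exact h6
  · exact h7
  · exact h8
  · exact h9

/-- integer weights of the graph -/
def Z1 (i j : Fin 10) : ℤ := if Nat.testBit (masks.getD i 0) j = true then 1 else 0

/-- integer weights of the graph with the pendant vertex, `v = 2`, `x = 100` -/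
def Z2 : Option (Fin 10) → Option (Fin 10) → ℤ
  | some i, some j => Z1 i j
  | some i, none => if i = 2 then 100 else 0
  | none, some j => if j = 2 then 100 else 0
  | none, none => 0

/-- approximate Fiedler vector of the graph -/
def P1 (i : Fin 10) : ℤ := ([-70291, 183694, -253677, 853409, -157582, -191651, -101247, 127939, -241085, -149509] : List ℤ).getD i 0

/-- index -/
def ix : Option (Fin 10) → ℕ
  | some i => i
  | none => 10

/-- approximate Fiedler vector of the graph with the pendant vertex -/
def P2 (i : Option (Fin 10)) : ℤ := ([-118701, -160405, 392523, -651137, -731, 417332, -16170, -201755, -87136, 27907, 398273] : List ℤ).getD (ix i) 0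

/-- table -/
def T1 : List (List ℤ) := [
   [2088872, -18544, 504336, 392575, 15908, 498075, 488948, -12916, 24338, 15093],
   [0, 2109372, 412234, 226408, 433046, -45691, -22153, 33311, 411304, 435148],
   [0, 0, 1765596, 33533, -37729, -48997, -90853, 507147, 567313, -41467],
   [0, 0, 0, 1824002, 270575, 178611, 305316, 168901, 143129, 281890],
   [0, 0, 0, 0, 2271705, 463215, -16005, -44578, -36031, -86207],
   [0, 0, 0, 0, 0, 979652, 777927, 969453, 1188387, 1108432],
   [0, 0, 0, 0, 0, 0, 1852797, -427557, -457024, 50832],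
   [0, 0, 0, 0, 0, 0, 0, 1996506, -384121, -578485],
   [0, 0, 0, 0, 0, 0, 0, 0, 490769, -1237576],
   [0, 0, 0, 0, 0, 0, 0, 0, 0, 199959]]

/-- table -/
def T2 : List (List ℤ) := [
   [2098818, 27216, 409860, 586936, 124, 405651, 479202, 34231, 14784, -4735, 408884],
   [0, 2106944, 379677, 141135, 474786, -100556, -2497, 45638, 494331, 468308, 378376],
   [0, 0, 10174126, -5986, -17808, 35714, -21083, 71855, 69160, -14056, -9715060],
   [0, 0, 0, 1506737, 620042, -25821, 498131, 244242, 724866, 585428, -85974],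
   [0, 0, 0, 0, 2180041, 487800, -141317, -78618, -313172, -268641, 320973],
   [0, 0, 0, 0, 0, 1212728, 715466, 643341, 910039, 1014748, 1285524],
   [0, 0, 0, 0, 0, 0, 1831248, -326581, -576984, -29386, -136900],
   [0, 0, 0, 0, 0, 0, 0, 2211354, 22224, -390540, 271437],
   [0, 0, 0, 0, 0, 0, 0, 0, 592534, -1144197, 476998],
   [0, 0, 0, 0, 0, 0, 0, 0, 0, 488252, 412436],
   [0, 0, 0, 0, 0, 0, 0, 0, 0, 0, 1700836]]

/-- square root of the certificate matrix -/
def B1 (k i : Fin 10) : ℤ := (T1.getD k []).getD i 0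

/-- square root of the certificate matrix -/
def B2 (k : Fin 11) (i : Option (Fin 10)) : ℤ := (T2.getD k []).getD (ix i) 0

lemma cert1 : Fied.Cert Z1 1000000 P1 1634839 1650562112518 1000000000000 3 4402829 282 B1 where
  symm := by decide +kernel
  nonneg := by decide +kernel
  K_pos := by decide +kernel
  sum0 := by decide +kernel
  dd := by decide +kernel
  pp := by decide +kernel
  ray := by decide +kernel
  res := by decide +kernel
  lm_pos := by decide +kernel
  lt := by decide +kernel
  t_nonneg := by decide +kernel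
  R_nonneg := by decide +kernel
  small := by decide +kernel
  del := by decide +kernel

lemma cert2 : Fied.Cert Z2 1000000 P2 1443805 1627053442660 1000000000000 3 39822093 219 B2 where
  symm := by decide +kernel
  nonneg := by decide +kernel
  K_pos := by decide +kernel
  sum0 := by decide +kernel
  dd := by decide +kernel
  pp := by decide +kernel
  ray := by decide +kernel
  res := by decide +kernel
  lm_pos := by decide +kernel
  lt := by decide +kernel
  t_nonneg := by decide +kernel
  R_nonneg := by decide +kernel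
  small := by decide +kernel
  del := by decide +kernel

/-- From a certificate to a Fiedler vector close to a positive multiple of `P`. -/
lemma exists_fiedler {V : Type} [Fintype V] [DecidableEq V] {κ : Type} [Fintype κ]
    {Z : V → V → ℤ} {K : ℤ} {P : V → ℤ} {lm rk c t R D : ℤ} {B : κ → V → ℤ}
    (h : Fied.Cert Z K P lm rk c t R D B) (W : V → V → ℝ) (hW : ∀ i j, W i j = (Z i j : ℝ))
    (htr : 0 < ∑ i, ((∑ k, Z i k) - Z i i)) :
    ∃ (μ : ℝ) (φ : V → ℝ) (α : ℝ), 0 < α ∧ IsFiedler W μ φ ∧ IsSimpleEig W μ ∧
      ∀ i, |φ i - α * P i| ≤ α * D := by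
  have hLZ : ∀ i j, lap W i j = (((if i = j then ∑ k, Z i k else 0) - Z i j : ℤ) : ℝ) := by
    intro i j
    rw [lap, Matrix.sub_apply, Matrix.of_apply, Matrix.diagonal_apply, hW]
    by_cases hij : i = j
    · rw [if_pos hij, if_pos hij]
      push_cast
      rw [Finset.sum_congr rfl fun k _ => hW i k]
    · rw [if_neg hij, if_neg hij]
      push_cast
      ring
  have hherm : (lap W).IsHermitian := by
    rw [Matrix.IsHermitian, Matrix.conjTranspose_eq_transpose_of_trivial]
    ext i j
    rw [Matrix.transpose_apply, hLZ, hLZ, h.symm i j]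
    by_cases hij : i = j
    · subst hij; rfl
    · rw [if_neg hij, if_neg (Ne.symm hij)]
  have htrace : 0 < (lap W).trace := by
    have e : (lap W).trace = ((∑ i, ((∑ k, Z i k) - Z i i) : ℤ) : ℝ) := by
      rw [Matrix.trace, Int.cast_sum]
      refine Finset.sum_congr rfl fun i _ => ?_
      rw [Matrix.diag_apply, hLZ, if_pos rfl]
    rw [e]
    exact_mod_cast htr
  obtain ⟨μ, φ, hunit, heig, hpos, hleast⟩ := Fied.exists_least hherm htrace
  have hne : ∀ ψ : V → ℝ, ∑ i, ψ i ^ 2 = 1 → ψ ≠ 0 := by
    intro ψ hψ h0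
    rw [h0] at hψ
    simp at hψ
  have hφ0 := hne φ hunit
  have hsimple : IsSimpleEig W μ := by
    rw [IsSimpleEig, finrank_eq_one_iff']
    refine ⟨⟨φ, ?_⟩, ?_, ?_⟩
    · rw [Module.End.mem_eigenspace_iff, Matrix.toLin'_apply, heig]
    · intro h0
      exact hφ0 (congrArg Subtype.val h0)
    · rintro ⟨ψ, hψ⟩
      rw [Module.End.mem_eigenspace_iff, Matrix.toLin'_apply] at hψ
      have ha : ∑ i, (P i : ℝ) * φ i ≠ 0 := by
        intro h0
        exact hφ0 ((Fied.of_cert h hLZ hpos hleast heig).1 h0)
      set a := ∑ i, (P i : ℝ) * φ i with hadef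
      set b := ∑ i, (P i : ℝ) * ψ i with hbdef
      have hχ : lap W *ᵥ (a • ψ - b • φ) = μ • (a • ψ - b • φ) := by
        rw [Matrix.mulVec_sub, Matrix.mulVec_smul, Matrix.mulVec_smul, hψ, heig, smul_sub,
          smul_comm a μ, smul_comm b μ]
      have h0 := (Fied.of_cert h hLZ hpos hleast hχ).1 (by
        have : ∀ i, (P i : ℝ) * (a • ψ - b • φ) i = a * ((P i : ℝ) * ψ i) - b * ((P i : ℝ) * φ i) := by
          intro i
          simp only [Pi.sub_apply, Pi.smul_apply, smul_eq_mul]
          ring
        rw [Finset.sum_congr rfl fun i _ => this i, Finset.sum_sub_distrib, ← Finset.mul_sum,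
          ← Finset.mul_sum, ← hadef, ← hbdef]
        ring)
      refine ⟨b / a, ?_⟩
      apply Subtype.ext
      funext i
      have h1 := congrFun h0 i
      simp only [Pi.sub_apply, Pi.smul_apply, smul_eq_mul, Pi.zero_apply] at h1
      show b / a * φ i = ψ i
      field_simp
      linarith
  obtain ⟨h1, α, h2, h3⟩ := Fied.of_cert h hLZ hpos hleast heig
  have hα : α ≠ 0 := by
    intro h0
    rw [h0, zero_mul] at h2
    exact hφ0 (h1 h2)
  rcases lt_or_gt_of_ne hα with hneg | hpos'
  · refine ⟨μ, -φ, -α, by linarith, ⟨?_, ?_, hpos, hleast⟩, hsimple, ?_⟩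
    · simpa using hunit
    · rw [Matrix.mulVec_neg, heig, smul_neg]
    · intro i
      have := h3 i
      rw [abs_of_neg hneg] at this
      rw [Pi.neg_apply, show -φ i - -α * (P i : ℝ) = -(φ i - α * P i) by ring, abs_neg]
      exact this
  · refine ⟨μ, φ, α, hpos', ⟨hunit, heig, hpos, hleast⟩, hsimple, ?_⟩
    intro i
    have := h3 i
    rw [abs_of_pos hpos'] at this
    exact this

lemma lt_of_close {V : Type} {P : V → ℤ} {D : ℤ} {φ : V → ℝ} {α : ℝ} (hα : 0 < α)
    (h : ∀ i, |φ i - α * P i| ≤ α * D) {i j : V} (hij : P i + D < P j - D) : φ i < φ j := by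
  have h1 := (abs_le.1 (h i)).2
  have h2 := (abs_le.1 (h j)).1
  have h3 : ((P i + D : ℤ) : ℝ) < ((P j - D : ℤ) : ℝ) := by exact_mod_cast hij
  push_cast at h3
  nlinarith

lemma wts_eq (i j : Fin 10) : wts G10 i j = (Z1 i j : ℝ) := by
  unfold wts Z1
  by_cases h : G10.Adj i j
  · have h' : Nat.testBit (masks.getD i 0) j = true := h
    rw [if_pos h, if_pos h']
    simp
  · have h' : ¬ Nat.testBit (masks.getD i 0) j = true := h
    rw [if_neg h, if_neg h']
    simp

lemma attach_eq (i j : Option (Fin 10)) : attach (wts G10) 2 100 i j = (Z2 i j : ℝ) := by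
  rcases i with _ | i <;> rcases j with _ | j
  · simp [attach, Z2]
  · by_cases h : j = 2
    · simp [attach, Z2, h]
    · simp [attach, Z2, h]
  · by_cases h : i = 2
    · simp [attach, Z2, h]
    · simp [attach, Z2, h]
  · exact wts_eq i j

/-- The answer to Q1 is no. There is a connected graph on `10` vertices with a vertex `v` that is
the only minimum of its Fiedler vector, such that for `x = 100` the new vertex is neither a
maximum nor a minimum of the Fiedler vector of the graph with the pendant vertex. -/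
theorem result :
    (∃ (G : SimpleGraph (Fin 10)) (v : Fin 10), G.Connected ∧
      (∃ (μ : ℝ) (φ : Fin 10 → ℝ), IsFiedler (wts G) μ φ ∧ IsSimpleEig (wts G) μ ∧
        ∀ u, u ≠ v → φ v < φ u) ∧
      (∃ (μ' : ℝ) (Φ : Option (Fin 10) → ℝ), IsFiedler (attach (wts G) v 100) μ' Φ ∧
        IsSimpleEig (attach (wts G) v 100) μ' ∧ ∃ a b, Φ a < Φ none ∧ Φ none < Φ b)) ∧
    ¬ Question := by
  obtain ⟨μ, φ, α, hα, hF, hS, hc⟩ := exists_fiedler cert1 (wts G10) wts_eq (by decide +kernel)
  obtain ⟨μ', Φ, β, hβ, hF', hS', hc'⟩ :=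
    exists_fiedler cert2 (attach (wts G10) 2 100) attach_eq (by decide +kernel)
  have hmin : ∀ u : Fin 10, u ≠ 2 → φ 2 < φ u := by
    intro u hu
    apply lt_of_close hα hc
    revert u
    decide +kernel
  have h1 : Φ (some 3) < Φ none := lt_of_close hβ hc' (by decide +kernel)
  have h2 : Φ none < Φ (some 5) := lt_of_close hβ hc' (by decide +kernel)
  refine ⟨⟨G10, 2, G10_connected, ⟨μ, φ, hF, hS, hmin⟩, ⟨μ', Φ, hF', hS', some 3, some 5, h1, h2⟩⟩, ?_⟩
  intro hQ
  have hext : IsExtremum φ 2 := by
    right
    intro i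
    by_cases hi : i = 2
    · rw [hi]
    · exact (hmin i hi).le
  rcases hQ 10 (by norm_num) G10 G10_connected μ φ hF hS 2 hext 100 (by norm_num) μ' Φ hF' hS'
    with h | h
  · exact absurd (h (some 5)) (not_le.2 h2)
  · exact absurd (h (some 3)) (not_le.2 h1)

end Pool.Agent.Results.MP_a456c8_co.PendantNotExtremal
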